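import Pool.Agent.helper77.MC.Spec

set_option autoImplicit false

namespace Pool.Agent.helper77.MC

open Finset Numbering

theorem ST (h1 : JC_stmt) : ST_stmt := by
  intro β _ _ t A g hA
  rw [sum_comm, mul_sum, sum_filter]
  refine sum_congr rfl fun J hJ => ?_
  have e0 : (prefixed t : Finset (Numbering β)).filter (fun f => f ∈ prefixed J) =
      (prefixed J : Finset (Numbering β)) ∩ prefixed t := by
    ext f
    rw [mem_filter, mem_inter, and_comm]
  have e1 : ∑ f ∈ (prefixed t : Finset (Numbering β)), (if f ∈ prefixed J then g #J else 0) =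
      (#((prefixed J : Finset (Numbering β)) ∩ prefixed t) : ℝ) * g #J := by
    rw [← sum_filter, sum_const, nsmul_eq_mul, e0]
  rw [e1]
  by_cases hJt : J ⊆ t
  · rw [if_pos hJt]
    have h2 := h1 β J t hJt
    have hc : (0 : ℝ) < ((#t).choose #J : ℝ) := by
      exact_mod_cast Nat.choose_pos (card_le_card hJt)
    have h3 : (#(prefixed t : Finset (Numbering β)) : ℝ) =
        (#((prefixed J : Finset (Numbering β)) ∩ prefixed t) : ℝ) * ((#t).choose #J : ℝ) := by
      rw [← h2]
      push_cast
      ring
    rw [h3]
    field_simp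
  · rw [if_neg hJt]
    have h4 : Disjoint (prefixed J : Finset (Numbering β)) (prefixed t) :=
      disjoint_prefixed_prefixed hJt (hA J hJ)
    rw [disjoint_iff_inter_eq_empty.1 h4, card_empty]
    simp

end Pool.Agent.helper77.MC
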